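import Pool.Agent.H30EV.Pts

/-!
# All Artin twists, by all the representations of all the Galois 2-extensions of an explicit infinite
# class, have rank zero for a positive proportion of all elliptic curves over `ℚ`; and for a given
# 2-extension the prime `2` may be ramified

The definitions of `IsMinimal`, `Curves`, `curve`, `FieldFor`, `TwistFor` are in
`Pool/Agent/H30EV/Defs.lean`.

For an elliptic curve `E : y² = x³ + A x + B` the class of admissible fields consists of the fields
`F = K(√d)`; `K / ℚ` is a Galois extension of 2-power degree in which `2` is unramified, the primes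
ramified in `K` are such that `x³ + A x + B` has no zero modulo them, and the odd primes dividing
`A` and `B` split completely in `K`; `d` is a squarefree integer, the cubic has no zero modulo its odd
prime factors, and a condition modulo `4` holds.

Theorem: a positive proportion of all `E / ℚ`, ordered by height, has for ALL its admissible fields `F` at
the same time `E(F) = 0` and `m_ρ(E) = 0` for all complex representations `ρ` of `Gal(F / ℚ)`. Here any
given field `F₀ = K₀(√δ)`, where `K₀ / ℚ` is a Galois extension of 2-power degree unramified at `2` and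
`δ` is a squarefree integer, may be prescribed to be admissible. So for each such field `F₀` (the
quadratic fields ramified at `2` are among them) `m_ρ(E) = 0` for all `ρ`, for a positive proportion of
all `E / ℚ`.

The starting result `PositiveProportionUnramified` has the second assertion for the fields `F₀` unramified
at `2`.

The proof: see `Pool/Agent/H30EV`. For the curves of a family of positive density (from the
projects PQ and PV of the library) the relaxed 2-Selmer group over `ℚ` of a twist by a product of
primes is zero. A class in the Selmer group over `K` of the twist by `d` gives, by descent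
along a tower of steps of degree two in the compositum `K(√d)(θ)`, `θ` a zero of the cubic, an invariant
class, hence a class over `ℚ`; at the primes which ramify in `K` or divide `d` there is only one
prime of `ℚ(θ)`, and nothing is needed there; at `2` the local images over all unramified
extensions of `ℚ_2` are computed for all the twists by `d = 1, 2` modulo `4`.
-/

set_option autoImplicit false
set_option linter.all false

open Filter NumberField
open Pool.Agent.H30EV
open scoped Classical TensorProduct

namespace Pool.Agent.Results.MP_775b3b_nt.AllAdmissibleExtensions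

/-- The curve `y ^ 2 = x ^ 3 + A x + B` over `ℚ`. -/
def curveQ (p : ℤ × ℤ) : WeierstrassCurve ℚ := ⟨0, 0, 0, (p.1 : ℚ), (p.2 : ℚ)⟩

section mult

variable (F : Type) [Field F] [CharZero F] (p : ℤ × ℤ)

/-- The group `E(F)`. -/
def Pts : Type := ((curveQ p).baseChange F).toAffine.Point

noncomputable instance instPts : AddCommGroup (Pts F p) :=
  (inferInstance : AddCommGroup ((curveQ p).baseChange F).toAffine.Point)

/-- The action of `g` in the Galois group on `E(F)`. -/
noncomputable def act (g : F ≃ₐ[ℚ] F) : Pts F p →+ Pts F p :=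
  WeierstrassCurve.Affine.Point.map (W' := (curveQ p).toAffine) g.toAlgHom

/-- The complex vector space `V_E = E(F) ⊗ ℂ`. -/
def VE : Type := ℂ ⊗[ℤ] Pts F p

noncomputable instance instVE : AddCommGroup (VE F p) :=
  (inferInstance : AddCommGroup (ℂ ⊗[ℤ] Pts F p))

noncomputable instance instVE' : Module ℂ (VE F p) :=
  (inferInstance : Module ℂ (ℂ ⊗[ℤ] Pts F p))

/-- The action of `g` on `V_E`. -/
noncomputable def gal (g : F ≃ₐ[ℚ] F) : VE F p →ₗ[ℂ] VE F p :=
  LinearMap.baseChange ℂ (act F p g).toIntLinearMap

/-- The space `Hom_G(ρ, V_E)`. -/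
def HomG {V : Type} [AddCommGroup V] [Module ℂ V] (ρ : Representation ℂ (F ≃ₐ[ℚ] F) V) :
    Submodule ℂ (V →ₗ[ℂ] VE F p) where
  carrier := {f | ∀ (g : F ≃ₐ[ℚ] F) (v : V), f (ρ g v) = gal F p g (f v)}
  add_mem' := by
    intro f f' h h' g v
    rw [LinearMap.add_apply, LinearMap.add_apply, h g v, h' g v, map_add]
  zero_mem' := by
    intro g v
    rw [LinearMap.zero_apply, LinearMap.zero_apply, map_zero]
  smul_mem' := by
    intro c f h g v
    rw [LinearMap.smul_apply, LinearMap.smul_apply, h g v, map_smul]

/-- The multiplicity `m_ρ(E) = dim Hom_G(ρ, V_E)`. -/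
noncomputable def mult {V : Type} [AddCommGroup V] [Module ℂ V]
    (ρ : Representation ℂ (F ≃ₐ[ℚ] F) V) : Cardinal := Module.rank ℂ (HomG F p ρ)

end mult

/-- `E(F) = 0`, and all multiplicities `m_ρ(E)` are zero. -/
structure AllZero (F : Type) [Field F] [CharZero F] (p : ℤ × ℤ) : Prop where
  trivial : Subsingleton (Pts F p)
  zero : ∀ (V : Type) [AddCommGroup V] [Module ℂ V] (ρ : Representation ℂ (F ≃ₐ[ℚ] F) V),
    mult F p ρ = 0

/-- The field `F` is admissible for the curve `q`: `F / ℚ` is a Galois extension, and `F = K(s)`,
`s ^ 2 = d`, where the subfield `K` and the integer `d` are admissible for `q` (`FieldFor`,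
`TwistFor`). -/
def Admissible (F : Type) [Field F] [NumberField F] (q : ℤ × ℤ) : Prop :=
  IsGalois ℚ F ∧ ∃ (K : IntermediateField ℚ F) (d : ℤ) (s : F), FieldFor K q ∧ TwistFor q d ∧
    s ^ 2 = (d : F) ∧ IntermediateField.adjoin K {s} = ⊤

theorem allZero_of {F : Type} [Field F] [NumberField F] {q : ℤ × ℤ}
    (h : Subsingleton (curve F q).toAffine.Point) : AllZero F q := by
  have e : curve F q = (curveQ q).baseChange F := by
    apply WeierstrassCurve.ext <;> simp [curve, curveQ, WeierstrassCurve.baseChange]
  have key : ∀ W : WeierstrassCurve F, curve F q = W → Subsingleton W.toAffine.Point := by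
    rintro W rfl
    exact h
  have k1 : Subsingleton (Pts F q) := key _ e
  refine ⟨k1, ?_⟩
  intro V _ _ ρ
  -- the tensor product is zero
  have hz : ∀ x : VE F q, x = 0 := by
    intro x
    change ℂ ⊗[ℤ] Pts F q at x
    induction x using TensorProduct.induction_on with
    | zero => rfl
    | tmul z P =>
      rw [Subsingleton.elim P 0, TensorProduct.tmul_zero]
      rfl
    | add x y hx hy =>
      rw [hx, hy]
      exact add_zero (0 : VE F q)
  have hs : Subsingleton (HomG F q ρ) := by
    refine ⟨fun f f' => ?_⟩
    apply Subtype.ext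
    ext v
    rw [hz ((f : V →ₗ[ℂ] VE F q) v), hz ((f' : V →ₗ[ℂ] VE F q) v)]
  exact rank_subsingleton' ℂ _

/-- Let `F₀ / ℚ` be a Galois extension, `F₀ = K₀(s)`, `s ^ 2 = δ`, where `K₀ / ℚ` is a Galois extension of
degree `2 ^ n` in which `2` is unramified and `δ` is a squarefree integer. There is `c > 0` such that
for all large `X` at least `c` times the number of all elliptic curves over `ℚ` of height at
most `X` have both properties: `F₀` is admissible for the curve, and for ALL the admissible fields
`F` the group `E(F)` is zero and `m_ρ(E) = 0` for all representations `ρ` of `Gal(F / ℚ)`. -/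
theorem result (F₀ : Type) [Field F₀] [NumberField F₀] [IsGalois ℚ F₀]
    (K₀ : IntermediateField ℚ F₀) [IsGalois ℚ K₀] (n : ℕ) (hn : Module.finrank ℚ K₀ = 2 ^ n)
    (h2 : ¬ Ramified K₀ 2) (δ : ℤ) (hδ : Squarefree δ) (s : F₀) (hs : s ^ 2 = (δ : F₀))
    (htop : IntermediateField.adjoin K₀ {s} = ⊤) :
    (∀ X : ℕ, (Curves X).Finite) ∧
    ∃ c : ℝ, 0 < c ∧ ∀ᶠ X : ℕ in atTop, 0 < (Curves X).ncard ∧
      c * ((Curves X).ncard : ℝ) ≤ ({q ∈ Curves X | Admissible F₀ q ∧
        ∀ (F : Type) [Field F] [NumberField F], Admissible F q → AllZero F q}.ncard : ℝ) := by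
  refine ⟨curves_fin, ?_⟩
  obtain ⟨c, hc, h⟩ := main K₀ hn h2 δ hδ ∅
  refine ⟨c, hc, ?_⟩
  filter_upwards [h] with X hX
  refine ⟨hX.1, hX.2.trans ?_⟩
  have h3 : {q ∈ Curves X | FieldFor K₀ q ∧ TwistFor q 1 ∧ TwistFor q δ ∧
      (∀ p ∈ (∅ : Finset ℕ), p.Prime → p ≠ 2 → NoZero q p) ∧ Nice q} ⊆ {q ∈ Curves X |
        Admissible F₀ q ∧
        ∀ (F : Type) [Field F] [NumberField F], Admissible F q → AllZero F q} := by
    rintro q ⟨hq, hf, h1, hd, -, hnice⟩
    refine ⟨hq, ⟨inferInstance, K₀, δ, s, hf, hd, hs, htop⟩, ?_⟩
    rintro F _ _ ⟨-, K, d, s', hK, hd', hs', htop'⟩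
    exact allZero_of (points_adjoin hq.1.elliptic K hd'.squarefree.ne_zero hs' htop'
      (hnice K hK 1 h1).points (hnice K hK d hd').points)
  have h4 := Set.ncard_le_ncard h3 ((curves_fin X).subset fun q hq => hq.1)
  exact_mod_cast h4

end Pool.Agent.Results.MP_775b3b_nt.AllAdmissibleExtensions
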