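import Pool.Agent.H67R.Fin

/-!
# All the Artin twists by all the representations of all the Galois 2-extensions: a bound for the
# multiplicities by the dimension and the number of the ramified primes, for a positive proportion of
# all elliptic curves over `ℚ`

For `E : y² = x³ + A x + B` and a Galois extension `F / ℚ` put `N(F) = ε + ∑ r_p + s`. Here `ε = 1` if
`2` is ramified in `F`, `ε = 0` if not; the sum is over the odd primes `p` which are ramified in `F`,
and `r_p` is the integral part of `log₂ (1 + z_p)`, `z_p` the number of the zeros of `x³ + A x + B`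
modulo `p` (this is the dimension of `E(𝔽_p)[2]` if `p` is good; it is at most two);
`s` is the number of the primes which divide `A` and `B`, and are unramified in `F` and do not split
completely in `F`.

Theorem: for a positive proportion of all `E / ℚ`, ordered by height, ALL Galois extensions `F / ℚ` of
2-power degree satisfy `m_ρ(E) ≤ N(F) dim ρ` for all complex representations `ρ` of
`Gal(F / ℚ)`; the number of the primes which divide `A` and `B` is at most a constant `C`; and any
given Galois extension `F₀ / ℚ` of 2-power degree may be prescribed to have `N(F₀) ≤ 1`, so that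
`m_ρ(E) ≤ dim ρ` for all `ρ`, and to have `N(F₀) = 0`, so that `m_ρ(E) = 0` for all `ρ`, if `2` is
unramified in `F₀`.

The proof: see `Pool/Agent/H67R`. The curves are those of the projects PQ, PV of the library and of
`Pool/Agent/H30GR`; the relaxed 2-Selmer group over `ℚ`, with no condition at the primes ramified
in `F` and at those counted by `s`, has dimension at most `N(F)`. The invariants of `E(F) / 2 E(F)` under
`Gal(F / ℚ)` embed in it (Hilbert's Theorem 90 for the extension `F(θ) / ℚ(θ)`, `θ` a zero of the cubic,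
and the explicit 2-descent map `P ↦ x(P) - θ`). So `E(F) / 2 E(F)` embeds in the sum of `N(F)` copies
of the group algebra over `𝔽_2`; by lifting the functionals to `ℤ` the representation `E(F) ⊗ ℂ` embeds
in the sum of `N(F)` copies of the regular representation.
-/

set_option autoImplicit false
set_option linter.all false

open Filter NumberField
open Pool.Agent.H30EV (Curves Ramified SplitsCompletely)
open scoped Classical TensorProduct

namespace Pool.Agent.Results.MP_775b3b_nt.AllTwoExtensionsBound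

/-- The curve `y ^ 2 = x ^ 3 + A x + B` over `ℚ`. -/
def curveQ (p : ℤ × ℤ) : WeierstrassCurve ℚ := ⟨0, 0, 0, (p.1 : ℚ), (p.2 : ℚ)⟩

section mult

variable (F : Type) [Field F] [CharZero F] (p : ℤ × ℤ)

/-- The group `E(F)`. -/
def Pts : Type := ((curveQ p).baseChange F).toAffine.Point

noncomputable instance instPts : AddCommGroup (Pts F p) :=
  (inferInstance : AddCommGroup ((curveQ p).baseChange F).toAffine.Point)

/-- The action of `g` in the Galois group on `E(F)`. -/
noncomputable def act (g : F ≃ₐ[ℚ] F) : Pts F p →+ Pts F p :=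
  WeierstrassCurve.Affine.Point.map (W' := (curveQ p).toAffine) g.toAlgHom

/-- The complex vector space `V_E = E(F) ⊗ ℂ`. -/
def VE : Type := ℂ ⊗[ℤ] Pts F p

noncomputable instance instVE : AddCommGroup (VE F p) :=
  (inferInstance : AddCommGroup (ℂ ⊗[ℤ] Pts F p))

noncomputable instance instVE' : Module ℂ (VE F p) :=
  (inferInstance : Module ℂ (ℂ ⊗[ℤ] Pts F p))

/-- The action of `g` on `V_E`. -/
noncomputable def gal (g : F ≃ₐ[ℚ] F) : VE F p →ₗ[ℂ] VE F p :=
  LinearMap.baseChange ℂ (act F p g).toIntLinearMap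

/-- The space `Hom_G(ρ, V_E)`. -/
def HomG {V : Type} [AddCommGroup V] [Module ℂ V] (ρ : Representation ℂ (F ≃ₐ[ℚ] F) V) :
    Submodule ℂ (V →ₗ[ℂ] VE F p) where
  carrier := {f | ∀ (g : F ≃ₐ[ℚ] F) (v : V), f (ρ g v) = gal F p g (f v)}
  add_mem' := by
    intro f f' h h' g v
    rw [LinearMap.add_apply, LinearMap.add_apply, h g v, h' g v, map_add]
  zero_mem' := by
    intro g v
    rw [LinearMap.zero_apply, LinearMap.zero_apply, map_zero]
  smul_mem' := by
    intro c f h g v
    rw [LinearMap.smul_apply, LinearMap.smul_apply, h g v, map_smul]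

/-- The multiplicity `m_ρ(E) = dim Hom_G(ρ, V_E)`. -/
noncomputable def mult {V : Type} [AddCommGroup V] [Module ℂ V]
    (ρ : Representation ℂ (F ≃ₐ[ℚ] F) V) : Cardinal := Module.rank ℂ (HomG F p ρ)

end mult

/-- The integral part of `log₂ (1 + z)`, `z` the number of the zeros of `x ^ 3 + A x + B` modulo `p`.
For a prime `p ≠ 2` of good reduction this is the dimension of `E(𝔽_p)[2]`, a group with `1 + z`
elements. -/
noncomputable def twoRank (q : ℤ × ℤ) (p : ℕ) : ℕ :=
  Nat.log 2 (1 + Nat.card {x : ZMod p // x ^ 3 + (q.1 : ZMod p) * x + (q.2 : ZMod p) = 0})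

/-- The odd primes which are ramified in `F`. -/
def oddRam (F : Type) [Field F] [NumberField F] : Set ℕ := {p | p.Prime ∧ p ≠ 2 ∧ Ramified F p}

/-- The primes which divide `A` and `B`. -/
def common (q : ℤ × ℤ) : Set ℕ := {p | p.Prime ∧ (p : ℤ) ∣ q.1 ∧ (p : ℤ) ∣ q.2}

/-- The primes which divide `A` and `B`, are unramified in `F` and do not split completely in `F`. -/
def inert (F : Type) [Field F] [NumberField F] (q : ℤ × ℤ) : Set ℕ :=
  {p ∈ common q | ¬ Ramified F p ∧ ¬ SplitsCompletely F p}

/-- The number `N(F) = ε + ∑ r_p + s`, the sum over the odd primes which are ramified in `F`;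
`ε = 1` if `2` is ramified in `F`, and `ε = 0` if not. -/
noncomputable def nRam (F : Type) [Field F] [NumberField F] (q : ℤ × ℤ) : ℕ :=
  (if Ramified F 2 then 1 else 0) + (∑ᶠ p ∈ oddRam F, twoRank q p + (inert F q).ncard)

/-- The number of the ramified odd primes is finite. -/
theorem oddRam_finite (F : Type) [Field F] [NumberField F] [IsGalois ℚ F] : (oddRam F).Finite :=
  (Pool.Agent.H30GR.ram_fin F).subset fun _ hp => ⟨hp.1, hp.2.2⟩

open Pool.Agent.H67R Pool.Agent.H30GR Pool.Agent.N922.PQ Pool.Agent.H30EV in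
theorem nRam_eq {F : Type} [Field F] [NumberField F] [IsGalois ℚ F] {A B : ℤ} (hB : B % 2 = 1)
    (hA : A % 2 = 1) : nRam F (A, B) =
      (if Unr F 2 then 0 else 1) + (dm A B (ram_fin F).toFinset + (inert F (A, B)).ncard) := by
  have h1 : (if Ramified F 2 then 1 else 0) = (if Unr F 2 then 0 else 1) := by
    have := Pool.Agent.H30EV.unr_iff (K := F) Nat.prime_two
    by_cases h : Ramified F 2
    · rw [if_pos h, if_neg]
      intro h2
      exact (this.1 h2) h
    · rw [if_neg h, if_pos (show Unr F 2 from this.2 h)]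
  have h2 : ∑ᶠ p ∈ oddRam F, twoRank (A, B) p = dm A B (ram_fin F).toFinset := by
    rw [finsum_mem_eq_finite_toFinset_sum _ (oddRam_finite F)]
    unfold dm
    have hsub : (oddRam_finite F).toFinset ⊆ (ram_fin F).toFinset := by
      intro p hp
      rw [Set.Finite.mem_toFinset] at hp ⊢
      exact ⟨hp.1, hp.2.2⟩
    refine Finset.sum_subset hsub fun p hp hp' => ?_
    rw [Set.Finite.mem_toFinset] at hp hp'
    have hp2 : p = 2 := by
      by_contra h
      exact hp' ⟨hp.1, h, hp.2⟩
    subst hp2
    have hz : nz A B 2 = 0 := by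
      apply nz_irr
      refine ⟨Pool.Agent.H30EV.isPr_nat Nat.prime_two, fun z hz => ?_⟩
      have hz' : (2 : ℤ) ∣ z ^ 3 + A * z + B := hz
      rw [Int.dvd_iff_emod_eq_zero, Int.add_emod, Int.add_emod (z ^ 3), Int.mul_emod, hA, hB,
        pow_three, Int.mul_emod z, Int.mul_emod z z] at hz'
      rcases Int.emod_two_eq_zero_or_one z with h0 | h0 <;> rw [h0] at hz' <;> norm_num at hz'
    show Nat.log 2 (1 + nz A B 2) = 0
    rw [hz]
    simp
  unfold nRam
  rw [h1, h2]

/-- Let `F₀ / ℚ` be a Galois extension of degree `2 ^ n`. There are `C` and `c > 0` such that for all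
large `X` at least `c` times the number of all elliptic curves over `ℚ` of height at most `X` have the
following properties: at most `C` primes divide `A` and `B`; `N(F₀) = 1` if `2` is ramified in `F₀`,
and `N(F₀) = 0` if `2` is unramified in `F₀`; and for ALL Galois extensions `F / ℚ` of 2-power
degree one has `m_ρ(E) ≤ N(F) dim ρ` for all complex representations `ρ` of `Gal(F / ℚ)` (of finite
dimension). -/
theorem result (F₀ : Type) [Field F₀] [NumberField F₀] [IsGalois ℚ F₀] (n : ℕ)
    (hn : Module.finrank ℚ F₀ = 2 ^ n) :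
    (∀ X : ℕ, (Curves X).Finite) ∧
    ∃ (C : ℕ) (c : ℝ), 0 < c ∧ ∀ᶠ X : ℕ in atTop, 0 < (Curves X).ncard ∧
      c * ((Curves X).ncard : ℝ) ≤ ({q ∈ Curves X |
        ((common q).Finite ∧ (common q).ncard ≤ C) ∧
        nRam F₀ q = (if Ramified F₀ 2 then 1 else 0) ∧
        ∀ (F : Type) [Field F] [NumberField F] [IsGalois ℚ F],
          (∃ k : ℕ, Module.finrank ℚ F = 2 ^ k) →
          ∀ (V : Type) [AddCommGroup V] [Module ℂ V] [FiniteDimensional ℂ V]
            (ρ : Representation ℂ (F ≃ₐ[ℚ] F) V),
            mult F q ρ ≤ ((nRam F q * Module.finrank ℂ V : ℕ) : Cardinal)}.ncard : ℝ) := by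
  refine ⟨Pool.Agent.H30EV.curves_fin, ?_⟩
  obtain ⟨C, c, hc, H₀, h⟩ := Pool.Agent.H67R.propQ F₀ {3} (by
    intro P hP
    rw [Finset.mem_singleton] at hP
    rw [hP]
    exact Pool.Agent.H30EV.isPr_nat Nat.prime_three)
  refine ⟨C, c, hc, ?_⟩
  filter_upwards [eventually_ge_atTop H₀, eventually_ge_atTop 27] with X hX hX'
  refine ⟨Pool.Agent.H30EV.curves_pos hX', ?_⟩
  obtain ⟨-, h3⟩ := h X hX
  rw [← Pool.Agent.H30EV.curves_eq] at h3
  refine h3.trans ?_
  have hsub : {p : ℤ × ℤ | Pool.Agent.N922.PQ.Crv X p.1 p.2 ∧ Pool.Agent.H67R.GoodQ F₀ {3} C p} ⊆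
      {q ∈ Curves X | ((common q).Finite ∧ (common q).ncard ≤ C) ∧
        nRam F₀ q = (if Ramified F₀ 2 then 1 else 0) ∧
        ∀ (F : Type) [Field F] [NumberField F] [IsGalois ℚ F],
          (∃ k : ℕ, Module.finrank ℚ F = 2 ^ k) →
          ∀ (V : Type) [AddCommGroup V] [Module ℂ V] [FiniteDimensional ℂ V]
            (ρ : Representation ℂ (F ≃ₐ[ℚ] F) V),
            mult F q ρ ≤ ((nRam F q * Module.finrank ℂ V : ℕ) : Cardinal)} := by
    rintro ⟨A, B⟩ ⟨hq, hg⟩
    have ha : A % 4 = 3 := hg.sel.a4
    have hb : B % 4 = 3 := hg.sel.b4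
    have hA : Odd A := by
      rw [Int.odd_iff]
      omega
    have hB : Odd B := by
      rw [Int.odd_iff]
      omega
    have hpos : 0 < A := hg.sel.pos
    have hd : 0 < 4 * A ^ 3 + 27 * B ^ 2 := by positivity
    have hirr : ∀ p : ℕ, p.Prime → Ramified F₀ p → (p : ℤ) ∈ Pool.Agent.H30EV.irr A B := by
      intro p hp hr
      by_contra hc'
      exact (Pool.Agent.H30EV.unr_iff hp).1
        (hg.adm.ur p (Pool.Agent.H30EV.isPr_nat hp) hc') hr
    -- the common prime divisors
    obtain ⟨K, hK, hKc⟩ := hg.cm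
    have hcs : common (A, B) ⊆ ((K.image Int.natAbs : Finset ℕ) : Set ℕ) := by
      rintro p ⟨hp, h1, h2⟩
      refine Finset.mem_coe.2 (Finset.mem_image.2 ⟨(p : ℤ), ?_, Int.natAbs_natCast p⟩)
      exact hKc p (Pool.Agent.H30EV.isPr_nat hp) h1 h2
    have hcf : (common (A, B)).Finite := (Finset.finite_toSet _).subset hcs
    have hcn : (common (A, B)).ncard ≤ C := by
      refine (Set.ncard_le_ncard hcs (Finset.finite_toSet _)).trans ?_
      rw [Set.ncard_coe_finset]
      exact Finset.card_image_le.trans hK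
    refine ⟨(Pool.Agent.H30EV.crv_iff X _).1 hq, ⟨hcf, hcn⟩, ?_, ?_⟩
    · have h0 : ∑ᶠ p ∈ oddRam F₀, twoRank (A, B) p = 0 := by
        apply finsum_mem_eq_zero_of_forall_eq_zero
        rintro p ⟨hp, -, hr⟩
        have hz := Pool.Agent.H30GR.nz_irr (hirr p hp hr)
        show Nat.log 2 (1 + Pool.Agent.H30GR.nz A B p) = 0
        rw [hz]
        simp
      have h1 : inert F₀ (A, B) = ∅ := by
        rw [Set.eq_empty_iff_forall_notMem]
        rintro p ⟨⟨hp, hA', hB'⟩, hur, hns⟩
        exact hns (Pool.Agent.H30EV.splits_of hp ((Pool.Agent.H30EV.unr_iff hp).2 hur)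
          (hg.adm.sp p (Pool.Agent.H30EV.isPr_nat hp) hA' hB'))
      unfold nRam
      rw [h0, h1, Set.ncard_empty, add_zero, add_zero]
    · intro F _ _ _ hdeg V _ _ _ ρ
      obtain ⟨k, hk⟩ := hdeg
      have hif : (inert F (A, B)).Finite := hcf.subset fun p hp => hp.1
      have hinv := hg.sel.inv F k hk (Pool.Agent.H30GR.ram_fin F).toFinset
        (hif.toFinset.image (fun p : ℕ => (p : ℤ))) (fun l => by
          rw [Set.Finite.mem_toFinset]
          constructor
          · rintro ⟨h1, h2⟩
            exact ⟨h1, fun h4 => (Pool.Agent.H30EV.unr_iff h1).1 h4 h2⟩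
          · rintro ⟨h1, h2⟩
            exact ⟨h1, by rwa [Pool.Agent.H30EV.unr_iff h1, not_not] at h2⟩) (fun Q hQ h1 h2 h3 => by
          obtain ⟨p, hp, rfl⟩ := Pool.Agent.H30EV.nat_isPr hQ
          by_cases hr : Pool.Agent.H30EV.Res F (p : ℤ)
          · exact Or.inl hr
          · refine Or.inr (Finset.mem_image.2 ⟨p, ?_, rfl⟩)
            rw [Set.Finite.mem_toFinset]
            exact ⟨⟨hp, h1, h2⟩, (Pool.Agent.H30EV.unr_iff hp).1 h3,
              fun hs => hr (Pool.Agent.H30EV.res_of_splits hs)⟩)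
      have hN := nRam_eq (F := F) (A := A) (B := B) (by omega) (by omega)
      have hinv' : Pool.Agent.H67R.InvBd F A B (nRam F (A, B)) := by
        rw [hN]
        refine hinv.mono (Nat.add_le_add_left (Nat.add_le_add_left ?_ _) _)
        rw [Set.ncard_eq_toFinset_card _ hif]
        exact Finset.card_image_le
      exact Pool.Agent.H67R.mult_bd hk hd.ne' (Pool.Agent.H30GR.no_zero hk hA hB) hinv' ρ
        (HomG F (A, B) ρ) (fun f hf g v => hf g v)
  have h4 := Set.ncard_le_ncard hsub ((Pool.Agent.H30EV.curves_fin X).subset fun q hq => hq.1)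
  exact_mod_cast h4

end Pool.Agent.Results.MP_775b3b_nt.AllTwoExtensionsBound
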