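import Pool.Agent.H29C.Fin
import Pool.Agent.H29C.Chi4
import Pool.Agent.H29C.ThmD
import Pool.Agent.H29C.Adm0
import Pool.Agent.H29C.PRD
import Pool.Agent.H30T.Cubic6
import Pool.Agent.H30T.Defs7
import Pool.Agent.Helper29L.Ctrl3
import Pool.Agent.Helper29L.Shell1

/-!
# Almost ALL elliptic curves over `ℚ`: the multiplicities of bounded quadratic characters, and of their products with
# the Artin representations of the admissible 2-extensions

For an elliptic curve `E` over `ℚ`, a Galois number field `F` and a representation `ρ` of `Gal(F/ℚ)` let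
`m_ρ(E) = dim Hom(ρ, E(F) ⊗ ℂ)`; `χ_d` is the character of `ℚ(√d)`. The curves are the minimal pairs `(a, b)` in the
ordering of the problem (`Curves X`). Let `C_n = ∏_{j ≥ 0} (1 + 2^{-j})⁻¹ ∏_{i = 1}^n 2 / (2 ^ i - 1)`;
`2 C_0 = 0.419…`, `2 C_1 = 0.838…`.

The integer `t` is admissible for `E` (`AdmissibleTwist`) if it is positive, squarefree, `1` modulo `8`, a square modulo the
primes whose square divides `4 a ^ 3 + 27 b ^ 2`, and `x ^ 3 + a x + b` has no zero modulo the primes dividing `t`. The number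
field `M` is admissible for `E` (`AdmissibleE`) if it is a real Galois extension of `ℚ` of degree a power of two, `2` and the
primes whose square divides `4 a ^ 3 + 27 b ^ 2` split completely in `M`, and `x ^ 3 + a x + b` has no zero modulo the primes
which are ramified in `M`.

Theorem. Let `M₀` be a real Galois extension of `ℚ` of degree a power of two in which `2` splits completely. Then `M₀` is
admissible for a positive proportion of all elliptic curves over `ℚ`. For every `ε > 0` there are `k` and finite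
disjoint sets `𝒬 0`, …, `𝒬 k` of primes (`1` modulo `8`, split completely in `M₀`) such that for all large `X` all but at
most the proportion `ε` of ALL elliptic curves `E` of height at most `X` satisfy the following. Let `L_i(E)` be the set
of the `Q ∈ 𝒬 i` for which `Q ∣ b` and `x ^ 2 + a` is irreducible modulo `Q`. The cubic `x ^ 3 + a x + b` is irreducible, the
sets `L_i(E)` are not empty; if `M₀` is admissible for `E` then it is admissible for ALL the twists `E^(d)`,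
`d = Q_0 ⋯ Q_{j - 1}`, `Q_i ∈ L_i(E)`, `j ≤ k + 1`. There is a parity `s` such that for `j = k` and `j = k + 1`, if the
primes `Q_i ∈ L_i(E)`, `i < j`, are chosen uniformly and independently and `d = Q_0 ⋯ Q_{j - 1}`:

* for ALL `n ≥ 0` the probability of `m_{χ_d}(E) ≤ n` is at least `2 ∑ C_i - ε`, the sum over the `i ≤ n` with
  `i = s + j` modulo `2`. So the value `0` is taken with a probability of at least `2 C_0 - ε > 0.4 - ε` if
  `j = s` modulo `2`, and a value at most `1` with a probability of at least `2 C_1 - ε > 0.8 - ε` if `j ≠ s` modulo `2`;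
* if `j = s` modulo `2` then with a probability of at least `2 C_0 - ε` one has `m_{ρ ⊗ χ_{d t}}(E) = 0` for ALL integers
  `t` which are admissible for the twist `E^(d)`, ALL number fields `M` which are admissible for `E^(d t)` and ALL
  complex representations `ρ` of `Gal(M/ℚ)`. So `m_{ρ ⊗ χ_d}(E) = 0` for the GIVEN representations `ρ` of `Gal(M₀/ℚ)`, if
  `M₀` is admissible for `E`.

So there is `D(ε)` such that all but the proportion `ε` of ALL elliptic curves over `ℚ` have a squarefree `d ≤ D(ε)` with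
the property in the second item. `t = 1` and `M = ℚ` are always admissible; if `x ^ 3 + a x + b` is irreducible then
there are infinitely many admissible primes `t` and every admissible field is contained in an admissible field of
twice the degree.

The minimalist conjecture predicts that `m_ρ(E)` is `0` or `1` according to the root number, for `100%` of the curves,
for every self-dual irreducible `ρ`, and `0` for the others. Here `d` is bounded in terms of `ε`, and the parity of the dimension of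
`Sel_2(E^(d)/ℚ)`, which is `s + j` for ALL the `d` of the fan, takes the place of the root number.

Proof. `Pool/Agent/H29A`, `H29B` (see `Results/MP_8cb858_nt/AllMomentsAlmostEveryCurve.lean`) for the distribution of
`dim Sel_2`; `Pool/Agent/H29C`, `H30T` for the passage from `Sel_2(E'/ℚ) = 0` to all `t` and `M`; `Helper29L/Chi2.lean`,
`H29C/Chi4.lean` for the multiplicities; `H29C/ThmD.lean`, `PRD.lean` for the primes which split in `M₀`.

Written with helpers 6, 12, 13, 22, 28, 52, 53, 58, 61, 78, 85, 86, 88, 94 (`H29A`, `H29B`), 3, 14, 28, 72, 74, 95 (`H29C`), 30 and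
others (`H30T`), 23, 24, 30, 52, 61, 90 (`Helper29L`), on the library of the projects named in their headers.
-/

set_option autoImplicit false
set_option linter.all false

namespace Pool.Agent.Results.MP_775b3b_nt.AlmostEveryCurve

open Filter IsDedekindDomain NumberField
open Pool.Agent.H30EV (curve twist SelmerTrivial ShaTrivial Pts Curves)
open Pool.Agent.H30GR (Sel2 Sha)
open Pool.Agent.H30T (AdmissibleE SplitsAt)
open Pool.Agent.Helper29L.Chi (mult)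
open scoped Classical

/-- The number `C_n` of Poonen and Rains. -/
noncomputable def poonenRains (n : ℕ) : ℝ :=
  (∏' j : ℕ, (1 + (1 / 2 : ℝ) ^ j))⁻¹ * ∏ i ∈ Finset.Icc 1 n, (2 : ℝ) / (2 ^ i - 1)

/-- `t` is admissible for the curve `P = (a, b)`: positive, squarefree, `1` modulo `8`, a square modulo the primes
whose square divides `4 a ^ 3 + 27 b ^ 2`, and `x ^ 3 + a x + b` has no zero modulo the primes dividing `t`. -/
structure AdmissibleTwist (P : ℤ × ℤ) (t : ℤ) : Prop where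
  pos : 0 < t
  squarefree : Squarefree t
  mod_eight : t % 8 = 1
  square : ∀ p : ℕ, p.Prime → (p : ℤ) ^ 2 ∣ 4 * P.1 ^ 3 + 27 * P.2 ^ 2 → ∃ z : ℤ, (p : ℤ) ∣ z ^ 2 - t
  noZero : ∀ p : ℕ, p.Prime → (p : ℤ) ∣ t → ∀ z : ℤ, ¬ (p : ℤ) ∣ z ^ 3 + P.1 * z + P.2

/-- `m_{χ_d}(P) ≤ n`, `χ_d` the character of `ℚ(√d)`, for all Galois number fields `F` which contain `√d`. -/
def CharacterLE (P : ℤ × ℤ) (d n : ℕ) : Prop :=
  ∀ (F : Type) [Field F] [NumberField F] [IsGalois ℚ F] (s : F)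
    (χ : Representation ℂ (F ≃ₐ[ℚ] F) ℂ), s ^ 2 = (d : F) →
    (∀ (g : F ≃ₐ[ℚ] F) (z : ℂ), χ g z = if g s = s then z else -z) → mult F P χ ≤ n

/-- `m_ρ(P) = 0` for all integers `t` which are admissible for the twist of `P` by `d`, all number fields `M` which are
admissible for the twist of `P` by `d t`, all Galois number fields `F`, `φ : M → F`, `s ∈ F`, `s ^ 2 = d t`, and all the
representations `ρ` of `Gal(F/ℚ)` for which the elements of `Gal(F/φ(M))` act by the character `χ_{d t}`. -/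
def AllProductsZero (P : ℤ × ℤ) (d : ℕ) : Prop :=
  ∀ t : ℤ, AdmissibleTwist (twist P (d : ℤ)) t → ∀ (M : Type) [Field M] [NumberField M],
    AdmissibleE M (twist P ((d : ℤ) * t)).1 (twist P ((d : ℤ) * t)).2 →
    ∀ (F : Type) [Field F] [NumberField F] [IsGalois ℚ F] (φ : M →ₐ[ℚ] F) (s : F)
      (V : Type) [AddCommGroup V] [Module ℂ V] (ρ : Representation ℂ (F ≃ₐ[ℚ] F) V),
      s ^ 2 = (((d : ℤ) * t : ℤ) : F) →
      (∀ h : F ≃ₐ[ℚ] F, (∀ x, h (φ x) = φ x) → ∀ v : V, ρ h v = if h s = s then v else -v) →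
      mult F P ρ = 0

/-- The primes `Q ∈ 𝒬` which divide `b` and for which `x ^ 2 + a` has no zero modulo `Q`. -/
noncomputable def level (𝒬 : Finset ℕ) (P : ℤ × ℤ) : Finset ℕ :=
  𝒬.filter fun Q => (Q : ℤ) ∣ P.2 ∧ ∀ z : ℤ, ¬ (Q : ℤ) ∣ z ^ 2 + P.1

/-- The probability that `d = Q_0 ⋯ Q_{j - 1}` has the property `𝒮`, if the primes `Q_i` are chosen uniformly in
the levels `level (𝒬 i) P`, `i < j`. -/
noncomputable def share (j : ℕ) (𝒬 : ℕ → Finset ℕ) (P : ℤ × ℤ) (𝒮 : Set ℕ) : ℝ :=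
  (((Fintype.piFinset fun i : Fin j => level (𝒬 i) P).filter fun Q => ∏ i, Q i ∈ 𝒮).card : ℝ) /
  ((Fintype.piFinset fun i : Fin j => level (𝒬 i) P).card : ℝ)

/-- The assertions on the multiplicities of `P`. -/
def Fans (M₀ : Type) [Field M₀] [NumberField M₀] (ε : ℝ) (k : ℕ) (𝒬 : ℕ → Finset ℕ) (P : ℤ × ℤ) :
    Prop :=
  (∀ z : ℤ, z ^ 3 + P.1 * z + P.2 ≠ 0) ∧ (∀ i ≤ k, (level (𝒬 i) P).Nonempty) ∧
  (AdmissibleE M₀ P.1 P.2 → ∀ j ≤ k + 1, ∀ Q : Fin j → ℕ, (∀ i : Fin j, Q i ∈ level (𝒬 i) P) →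
    AdmissibleE M₀ (twist P ((∏ i, Q i : ℕ) : ℤ)).1 (twist P ((∏ i, Q i : ℕ) : ℤ)).2) ∧
  ∃ s : ℕ, ∀ j : ℕ, j = k ∨ j = k + 1 →
    (∀ n : ℕ, 2 * ∑ i ∈ (Finset.range (n + 1)).filter (fun i => i % 2 = (s + j) % 2),
      poonenRains i - ε ≤ share j 𝒬 P {d | CharacterLE P d n}) ∧
    (j % 2 = s % 2 → 2 * poonenRains 0 - ε ≤
      share j 𝒬 P {d | CharacterLE P d 0 ∧ AllProductsZero P d})

/-- The assertion `𝒮` is true for all but at most the proportion `ε` of the elliptic curves over `ℚ` of height at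
most `X`, for all large `X`. -/
def MostCurves (ε : ℝ) (𝒮 : ℤ × ℤ → Prop) : Prop := ∀ᶠ X : ℕ in atTop,
  ({P ∈ Curves X | ¬ 𝒮 P}.ncard : ℝ) ≤ ε * ((Curves X).ncard : ℝ)

/-- There are arbitrarily large primes which are admissible twists, and every admissible field is contained in an
admissible field of twice the degree. -/
def Many (P : ℤ × ℤ) : Prop :=
  (∀ N : ℕ, ∃ l : ℕ, l.Prime ∧ N < l ∧ AdmissibleTwist P l) ∧
  ∀ (M : Type) [Field M] [NumberField M], AdmissibleE M P.1 P.2 →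
    ∃ (M' : Type) (_ : Field M') (_ : NumberField M'), Nonempty (M →+* M') ∧
      Module.finrank ℚ M' = 2 * Module.finrank ℚ M ∧ AdmissibleE M' P.1 P.2

/-! ### The deterministic theorem -/

theorem adm_iff {P : ℤ × ℤ} {t : ℤ} : AdmissibleTwist P t ↔ Pool.Agent.H29C.AdmT P.1 P.2 t :=
  ⟨fun h => ⟨h.pos, h.squarefree, h.mod_eight, h.square, h.noZero⟩,
    fun h => ⟨h.pos, h.sqf, h.m8, h.sq, h.noz⟩⟩

theorem adm_one (P : ℤ × ℤ) : AdmissibleTwist P 1 where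
  pos := one_pos
  squarefree := squarefree_one
  mod_eight := by norm_num
  square p _ _ := ⟨1, by norm_num⟩
  noZero p hp h := by
    exfalso
    have : p ∣ 1 := by exact_mod_cast h
    exact hp.one_lt.ne' (Nat.dvd_one.1 this)

/-- The field `ℚ` is admissible. -/
theorem adm_rat (a b : ℤ) : AdmissibleE ℚ a b := by
  have key : ∀ (p : ℕ), p.Prime → ∀ w : HeightOneSpectrum (𝓞 ℚ), (p : 𝓞 ℚ) ∉ w.asIdeal ^ 2 := by
    intro p hp w h
    obtain ⟨q, hq, -, hk⟩ := Pool.Agent.H30T.ratp w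
    have h1 := (hk 2 (p : ℤ)).1 (by exact_mod_cast h)
    have h2 : q ^ 2 ∣ p := by exact_mod_cast h1
    have h3 := hp.prime.squarefree q (by rwa [← sq])
    exact hq.one_lt.ne' (Nat.isUnit_iff.1 h3)
  have hgal : IsGalois ℚ ℚ := by
    convert IsGalois.self ℚ
  refine ⟨hgal, ⟨0, by simp⟩, ⟨algebraMap ℚ ℝ⟩, fun p hp _ w hw => ⟨key p hp w, ?_⟩, ?_⟩
  · obtain ⟨q, hq, hsp, hk⟩ := Pool.Agent.H30T.ratp w
    have h1 := (hk 1 (p : ℤ)).1 (by
      rw [pow_one]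
      exact_mod_cast hw)
    have h2 : q ∣ p := by
      rw [pow_one] at h1
      exact_mod_cast h1
    have h3 : q = p := (Nat.prime_dvd_prime_iff_eq hq hp).1 h2
    have e : Nat.card (𝓞 ℚ ⧸ w.asIdeal) = Ideal.absNorm w.asIdeal := rfl
    rw [e, hsp, Ideal.absNorm_span_singleton, h3]
    have h4 : Algebra.norm ℤ (((p : ℕ) : ℤ) : 𝓞 ℚ) = ((p : ℕ) : ℤ) ^ Module.finrank ℤ (𝓞 ℚ) :=
      Algebra.norm_algebraMap (p : ℤ)
    rw [RingOfIntegers.rank, Module.finrank_self, pow_one, Int.cast_natCast] at h4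
    rw [h4, Int.natAbs_natCast]
  · rintro p hp ⟨w, hw⟩
    exact absurd hw (key p hp w)

theorem admE_iff {F : Type} [Field F] [NumberField F] {A B : ℤ} :
    AdmissibleE F A B ↔ Pool.Agent.H30T.AdmissibleFor F (Pool.Agent.H29C.cb A B) := by
  have e : ∀ p : ℕ, (p : ℤ) ^ 2 ∣ (Pool.Agent.H30T.cubic A B).discr ↔
      (p : ℤ) ^ 2 ∣ 4 * A ^ 3 + 27 * B ^ 2 := by
    intro p
    rw [Pool.Agent.H30T.cubic_discr, dvd_neg]
  constructor
  · rintro ⟨h1, h2, h3, h4, h5⟩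
    exact ⟨h1, h2, h3, fun p hp h => h4 p hp (h.imp id (e p).1),
      fun p hp h => (Pool.Agent.H30T.cubic_modp A B hp).2 (h5 p hp h)⟩
  · rintro ⟨h1, h2, h3, h4, h5⟩
    exact ⟨h1, h2, h3, fun p hp h => h4 p hp (h.imp id (e p).2),
      fun p hp h => (Pool.Agent.H30T.cubic_modp A B hp).1 (h5 p hp h)⟩

theorem twist_one (P : ℤ × ℤ) : twist P 1 = P := by
  show (P.1 * 1 ^ 2, P.2 * 1 ^ 3) = P
  rw [one_pow, one_pow, mul_one, mul_one]

theorem card_one {P : ℤ × ℤ} (h : SelmerTrivial (curve ℚ P)) :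
    Finite (Sel2 (curve ℚ P)) ∧ Nat.card (Sel2 (curve ℚ P)) = 1 := by
  have hs : Subsingleton (Sel2 (curve ℚ P)) := by
    have key : ∀ x : Sel2 (curve ℚ P), x = 0 := by
      intro x
      obtain ⟨z, rfl⟩ := QuotientAddGroup.mk_surjective x
      obtain ⟨Q, hQ, hz⟩ := h z z.2.1 (fun σ => congrFun z.2.2 σ)
      refine (QuotientAddGroup.eq_zero_iff z).2 ?_
      rw [AddSubgroup.mem_addSubgroupOf]
      exact ⟨Q, hQ, hz.symm⟩
    exact ⟨fun x y => (key x).trans (key y).symm⟩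
  exact ⟨inferInstance, Nat.card_unique⟩

/-- `Ш(P/ℚ)[2]` is finite and `2 ^ rank * #Ш(P/ℚ)[2] = N`. -/
def RankSha (P : ℤ × ℤ) (N : ℕ) : Prop :=
  Finite {x : Sha (curve ℚ P) // 2 • x = 0} ∧
    2 ^ Module.finrank ℤ (Pts (curve ℚ P) ℚ) * Nat.card {x : Sha (curve ℚ P) // 2 • x = 0} = N

open Pool.Agent.Helper29L in
theorem rankSha_iff {P : ℤ × ℤ} (hd : 4 * P.1 ^ 3 + 27 * P.2 ^ 2 ≠ 0)
    (hz : ∀ z : ℤ, z ^ 3 + P.1 * z + P.2 ≠ 0) (n : ℕ) : RankSha P (2 ^ n) ↔ SelDim P n := by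
  have h := Pool.Agent.H30GR.card_sel_rank (F := ℚ) (q := P) hd (Pool.Agent.H29A.SUPW.rat_root hz)
  constructor
  · rintro ⟨-, h2⟩
    have h3 : Nat.card (Sel2 (curve ℚ P)) = 2 ^ n := by rw [h, mul_comm, h2]
    exact ⟨Nat.finite_of_card_ne_zero (by rw [h3]; positivity), h3⟩
  · rintro ⟨h1, h2⟩
    have h3 : 2 ^ Module.finrank ℤ (Pts (curve ℚ P) ℚ) *
        Nat.card {x : Sha (curve ℚ P) // 2 • x = 0} = 2 ^ n := by
      rw [← h2, h, mul_comm]
    refine ⟨Nat.finite_of_card_ne_zero fun h4 => ?_, h3⟩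
    rw [h4, mul_zero] at h3
    exact absurd h3.symm (by positivity)

/-! ### The twists -/

theorem disc_twist {P : ℤ × ℤ} (hd : 4 * P.1 ^ 3 + 27 * P.2 ^ 2 ≠ 0) {d : ℤ} (h0 : d ≠ 0) :
    4 * (twist P d).1 ^ 3 + 27 * (twist P d).2 ^ 2 ≠ 0 := by
  have e : 4 * (twist P d).1 ^ 3 + 27 * (twist P d).2 ^ 2 = d ^ 6 * (4 * P.1 ^ 3 + 27 * P.2 ^ 2) := by
    show 4 * (P.1 * d ^ 2) ^ 3 + 27 * (P.2 * d ^ 3) ^ 2 = _
    ring
  rw [e]
  exact mul_ne_zero (pow_ne_zero _ h0) hd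

theorem zero_twist {P : ℤ × ℤ} (hz : ∀ z : ℤ, z ^ 3 + P.1 * z + P.2 ≠ 0) {d : ℤ} (h0 : d ≠ 0) :
    ∀ z : ℤ, z ^ 3 + (twist P d).1 * z + (twist P d).2 ≠ 0 := by
  intro z h
  have hd : (d : ℚ) ≠ 0 := by exact_mod_cast h0
  have h1 : (z : ℚ) ^ 3 + P.1 * d ^ 2 * z + P.2 * d ^ 3 = 0 := by exact_mod_cast h
  refine Pool.Agent.H29A.SUPW.rat_root hz ((z : ℚ) / d) ?_
  field_simp
  linear_combination h1

/-- The many admissible twists and fields. -/
theorem many_of {P : ℤ × ℤ} (hd : 4 * P.1 ^ 3 + 27 * P.2 ^ 2 ≠ 0)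
    (hz : ∀ z : ℤ, z ^ 3 + P.1 * z + P.2 ≠ 0) : Many P := by
  refine ⟨fun N => ?_, fun M _ _ hM => Pool.Agent.H29C.tow P.1 P.2 hd hz M hM⟩
  obtain ⟨l, hl, hN, h8, hsq, hno⟩ := Pool.Agent.H29C.many P.1 P.2 hd hz
    (4 * P.1 ^ 3 + 27 * P.2 ^ 2).natAbs.primeFactors N
  refine ⟨l, hl, hN, ?_, ?_, ?_, fun p hp hpd => ?_, fun p hp hpl => ?_⟩
  · exact_mod_cast hl.pos
  · exact Int.squarefree_natCast.2 hl.prime.squarefree
  · exact_mod_cast h8
  · refine hsq p ?_ hp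
    rw [Nat.mem_primeFactors]
    refine ⟨hp, ?_, Int.natAbs_ne_zero.2 hd⟩
    exact Int.natCast_dvd.1 ((dvd_pow_self (p : ℤ) two_ne_zero).trans hpd)
  · have h1 : p ∣ l := by exact_mod_cast hpl
    rw [(Nat.prime_dvd_prime_iff_eq hp hl).1 h1]
    exact hno

/-! ### One twist -/

theorem fin_pts {K : Type} [Field K] [NumberField K] {q : ℤ × ℤ}
    (hq : 4 * q.1 ^ 3 + 27 * q.2 ^ 2 ≠ 0) : Module.Finite ℤ (Pool.Agent.H30EV.Pts (curve K q) K) := by
  have e : ((curve K q).baseChange K).Δ = ((-16 * (4 * q.1 ^ 3 + 27 * q.2 ^ 2) : ℤ) : K) := by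
    simp only [curve, WeierstrassCurve.baseChange, WeierstrassCurve.map, WeierstrassCurve.Δ,
      WeierstrassCurve.b₂, WeierstrassCurve.b₄, WeierstrassCurve.b₆, WeierstrassCurve.b₈,
      Algebra.algebraMap_self, RingHom.id_apply]
    push_cast
    ring
  rw [Module.Finite.iff_addGroup_fg]
  exact Pool.Agent.Q286.EQ.mordell_weil K ((curve K q).baseChange K) (by
    rw [e]
    exact_mod_cast mul_ne_zero (by norm_num : (-16 : ℤ) ≠ 0) hq)

open Pool.Agent.Helper29L.Chi in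
theorem rank_eq {q : ℤ × ℤ} (hq : 4 * q.1 ^ 3 + 27 * q.2 ^ 2 ≠ 0) :
    Module.rank ℤ (Pool.Agent.Helper29L.Chi.Pts ℚ q) =
      (Module.finrank ℤ (Pool.Agent.H30EV.Pts (curve ℚ q) ℚ) : Cardinal) := by
  have hfin : Module.Finite ℤ (Pool.Agent.H30EV.Pts (curve ℚ q) ℚ) := fin_pts hq
  rw [Module.finrank_eq_rank]
  rfl

open Pool.Agent.Helper29L.Chi Pool.Agent.Helper29L in
theorem char_le {P : ℤ × ℤ} (hP : 4 * P.1 ^ 3 + 27 * P.2 ^ 2 ≠ 0)
    (hz : ∀ z : ℤ, z ^ 3 + P.1 * z + P.2 ≠ 0) {d : ℕ} (hd : d ≠ 0) {i n : ℕ} (hin : i ≤ n)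
    (h : SelDim (twist P (d : ℤ)) i) : CharacterLE P d n := by
  intro F _ _ _ s χ hs hχ
  have hd' : (d : ℤ) ≠ 0 := by exact_mod_cast hd
  have hs' : s ^ 2 = ((d : ℤ) : F) := by rw [hs]; simp
  refine (mult_le (q := P) hP hd' hs' χ fun g v => ?_).trans ?_
  · rw [hχ g v]
    unfold cs
    split_ifs <;> simp
  · obtain ⟨-, h1⟩ := (rankSha_iff (disc_twist hP hd') (zero_twist hz hd') i).2 h
    have h2 : 2 ^ Module.finrank ℤ (Pool.Agent.H30EV.Pts (curve ℚ (twist P (d : ℤ))) ℚ) ≤ 2 ^ i := by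
      rw [← h1]
      refine Nat.le_mul_of_pos_right _ (Nat.pos_of_ne_zero fun h0 => ?_)
      rw [h0, mul_zero] at h1
      exact absurd h1.symm (by positivity)
    have h3 := (Nat.pow_le_pow_iff_right (by norm_num : 1 < 2)).1 h2
    rw [rank_eq (disc_twist hP hd')]
    exact_mod_cast h3.trans hin

open Pool.Agent.Helper29L.Chi Pool.Agent.Helper29L in
theorem products_zero {P : ℤ × ℤ} (hP : 4 * P.1 ^ 3 + 27 * P.2 ^ 2 ≠ 0)
    (hz : ∀ z : ℤ, z ^ 3 + P.1 * z + P.2 ≠ 0) {d : ℕ} (hd : d ≠ 0)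
    (h : SelDim (twist P (d : ℤ)) 0) : AllProductsZero P d := by
  intro t ht M _ _ hM F _ _ _ φ s V _ _ ρ hs hρ
  have hd' : (d : ℤ) ≠ 0 := by exact_mod_cast hd
  have h2 : Nat.card (Sel2 (curve ℚ ((twist P (d : ℤ)).1, (twist P (d : ℤ)).2))) = 1 := by
    have := h.2
    rwa [pow_zero] at this
  have e : twist P ((d : ℤ) * t) = twist (twist P (d : ℤ)) t := by
    apply Prod.ext
    · show P.1 * ((d : ℤ) * t) ^ 2 = P.1 * (d : ℤ) ^ 2 * t ^ 2
      ring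
    · show P.2 * ((d : ℤ) * t) ^ 3 = P.2 * (d : ℤ) ^ 3 * t ^ 3
      ring
  have hM' : AdmissibleE M ((twist P (d : ℤ)).1 * t ^ 2) ((twist P (d : ℤ)).2 * t ^ 3) := by
    rw [e] at hM
    exact hM
  obtain ⟨h3, -, -, -⟩ := Pool.Agent.H29C.allm (twist P (d : ℤ)).1 (twist P (d : ℤ)).2
    (disc_twist hP hd') (zero_twist hz hd') h2 t (adm_iff.1 ht) M (admE_iff.1 hM')
  refine Pool.Agent.H29C.Chi4.mult_zero'' φ hP (mul_ne_zero hd' ht.pos.ne') hs ?_ ρ fun h hh v => ?_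
  · rw [e]
    exact h3
  · rw [hρ h hh v]
    unfold cs
    split_ifs <;> simp

/-! ### The shares -/

open Pool.Agent.Helper29L in
theorem inj_of {j : ℕ} {𝒬 : ℕ → Finset ℕ} (hdis : ∀ i < j, ∀ i' < i, Disjoint (𝒬 i') (𝒬 i))
    {Q : Fin j → ℕ} (hQ1 : ∀ i : Fin j, Q i ∈ 𝒬 i) : Function.Injective Q := by
  intro i i' h
  by_contra hne
  have hij : (i : ℕ) ≠ i' := fun h3 => hne (Fin.ext h3)
  have m1 : Q i ∈ 𝒬 i := hQ1 i
  have m2 : Q i ∈ 𝒬 i' := by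
    rw [h]
    exact hQ1 i'
  rcases lt_or_gt_of_ne hij with h3 | h3
  · exact Finset.disjoint_left.1 (hdis i' i'.2 i h3) m1 m2
  · exact Finset.disjoint_left.1 (hdis i i.2 i' h3) m2 m1

open Pool.Agent.Helper29L in
theorem share_eq {j : ℕ} {𝒬 : ℕ → Finset ℕ} (hdis : ∀ i < j, ∀ i' < i, Disjoint (𝒬 i') (𝒬 i))
    (P : ℤ × ℤ) (𝒮 : Set ℕ) : share j 𝒬 P 𝒮 = frac j (lv 𝒬 P) (fun Z => ∏ Q ∈ Z, Q ∈ 𝒮) := by
  symm
  refine frac_val _ _ fun Q => ?_
  rw [Finset.mem_filter]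
  refine and_congr_right fun hQ => ?_
  have hQ1 := Fintype.mem_piFinset.1 hQ
  have hinj := inj_of hdis fun i => (Finset.mem_filter.1 (hQ1 i)).1
  rw [Finset.prod_image fun i _ i' _ h => hinj h]

open Pool.Agent.Helper29L in
theorem frac_mono {j : ℕ} {A : ℕ → Finset ℕ} {Pp P' : Finset ℕ → Prop}
    (h : ∀ Q : Fin j → ℕ, (∀ i : Fin j, Q i ∈ A i) → Pp (Finset.univ.image Q) →
      P' (Finset.univ.image Q)) : frac j A Pp ≤ frac j A P' := by
  unfold frac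
  refine div_le_div_of_nonneg_right ?_ (Nat.cast_nonneg _)
  refine Nat.cast_le.2 (Finset.card_le_card fun Q hQ => ?_)
  rw [Finset.mem_filter] at hQ ⊢
  exact ⟨hQ.1, h Q (fun i => Fintype.mem_piFinset.1 hQ.1 i) hQ.2⟩

open Pool.Agent.Helper29L in
theorem fans_of {M₀ : Type} [Field M₀] [NumberField M₀] {ε : ℝ} {k : ℕ} {𝒬 : ℕ → Finset ℕ}
    (h8D : ∀ i < k + 1, Pool.Agent.Helper29K.Pr8 (𝒬 i) ∧ ∀ Q ∈ 𝒬 i, Q ∈ {Q | SplitsAt M₀ Q})
    (hdis : ∀ i < k + 1, ∀ i' < i, Disjoint (𝒬 i') (𝒬 i)) {P : ℤ × ℤ}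
    (hd : 4 * P.1 ^ 3 + 27 * P.2 ^ 2 ≠ 0) (hz : ∀ z : ℤ, z ^ 3 + P.1 * z + P.2 ≠ 0)
    (h : NiceP k 𝒬 ε P) : Fans M₀ ε k 𝒬 P := by
  obtain ⟨hne, s, -, hs⟩ := h
  have h8 : ∀ i < k + 1, Pool.Agent.Helper29K.Pr8 (𝒬 i) := fun i hi => (h8D i hi).1
  have hT : ∀ j ≤ k + 1, ∀ Q : Fin j → ℕ, (∀ i : Fin j, Q i ∈ lv 𝒬 P i) →
      (∏ q ∈ Finset.univ.image Q, q) ≠ 0 := by
    intro j hj Q hQ
    refine (Finset.prod_pos fun q hq => ?_).ne'
    obtain ⟨i, -, rfl⟩ := Finset.mem_image.1 hq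
    have hi := i.2
    exact (h8 i (by omega) _ (Finset.mem_filter.1 (hQ i)).1).1.pos
  refine ⟨hz, fun i hi => hne i (Nat.lt_succ_of_le hi), fun hM j hj Q hQ => ?_, s,
    fun j hj => ⟨fun n => ?_, fun hjs => ?_⟩⟩
  · refine Pool.Agent.H29C.Adm0.adm_tw hM fun p hp hpd => ?_
    have hpd' : p ∣ ∏ i, Q i := by exact_mod_cast hpd
    obtain ⟨i, -, hi⟩ := (hp.prime.dvd_finset_prod_iff _).1 hpd'
    have hij := i.2
    have h1 := (Finset.mem_filter.1 (hQ i)).1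
    have h2 := h8D i (by omega)
    rw [(Nat.prime_dvd_prime_iff_eq hp (h2.1 _ h1).1).1 hi]
    exact h2.2 _ h1
  · have hj' : j ≤ k + 1 := by omega
    have h1 := hs j hj {i | i ≤ n}
    have e1 : ∑' m, (({i | i ≤ n} : Set ℕ) ∩ {m | m % 2 = (s + j) % 2}).indicator C2 m =
        ∑ i ∈ (Finset.range (n + 1)).filter (fun i => i % 2 = (s + j) % 2), poonenRains i := by
      rw [tsum_eq_sum (s := (Finset.range (n + 1)).filter (fun i => i % 2 = (s + j) % 2))]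
      · refine Finset.sum_congr rfl fun i hi => ?_
        obtain ⟨h2, h3⟩ := Finset.mem_filter.1 hi
        rw [Set.indicator_of_mem (show i ∈ ({i | i ≤ n} : Set ℕ) ∩ {m | m % 2 = (s + j) % 2} from
          ⟨Nat.lt_succ_iff.1 (Finset.mem_range.1 h2), h3⟩)]
        rfl
      · intro i hi
        refine Set.indicator_of_notMem (fun h2 => hi ?_) _
        exact Finset.mem_filter.2 ⟨Finset.mem_range.2 (Nat.lt_succ_iff.2 h2.1), h2.2⟩
    rw [e1] at h1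
    have h2 : frac j (lv 𝒬 P) (fun Z => ∃ i ∈ ({i | i ≤ n} : Set ℕ),
        SelDim (twist P ((∏ Q ∈ Z, Q : ℕ) : ℤ)) i) ≤ share j 𝒬 P {d | CharacterLE P d n} := by
      rw [share_eq (fun i hi => hdis i (by omega))]
      refine frac_mono fun Q hQ h3 => ?_
      obtain ⟨i, hi, h4⟩ := h3
      exact char_le hd hz (hT j hj' Q hQ) hi h4
    linarith [(abs_le.1 h1).1]
  · have hj' : j ≤ k + 1 := by omega
    have h1 := hs j hj {0}
    have e0 : (({0} : Set ℕ) ∩ {m | m % 2 = (s + j) % 2}) = {0} := by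
      ext m
      constructor
      · exact fun h => h.1
      · intro h
        rw [Set.mem_singleton_iff.1 h]
        refine ⟨rfl, ?_⟩
        show 0 % 2 = (s + j) % 2
        omega
    rw [e0, single] at h1
    have h2 : frac j (lv 𝒬 P) (fun Z => ∃ i ∈ ({0} : Set ℕ),
        SelDim (twist P ((∏ Q ∈ Z, Q : ℕ) : ℤ)) i) ≤
        share j 𝒬 P {d | CharacterLE P d 0 ∧ AllProductsZero P d} := by
      rw [share_eq (fun i hi => hdis i (by omega))]
      refine frac_mono fun Q hQ h3 => ?_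
      obtain ⟨i, hi, h4⟩ := h3
      rw [Set.mem_singleton_iff.1 hi] at h4
      have h5 := hT j hj' Q hQ
      exact ⟨char_le hd hz h5 le_rfl h4, products_zero hd hz h5 h4⟩
    have h3 : C2 0 = poonenRains 0 := rfl
    rw [h3] at h1
    linarith [(abs_le.1 h1).1]

theorem fans_mono {M₀ : Type} [Field M₀] [NumberField M₀] {ε δ : ℝ} (h : ε ≤ δ) {k : ℕ}
    {𝒬 : ℕ → Finset ℕ} {P : ℤ × ℤ} (hP : Fans M₀ ε k 𝒬 P) : Fans M₀ δ k 𝒬 P := by
  obtain ⟨h1, h2, h2', s, h3⟩ := hP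
  refine ⟨h1, h2, h2', s, fun j hj => ⟨fun n => ?_, fun hs => ?_⟩⟩
  · linarith [(h3 j hj).1 n]
  · linarith [(h3 j hj).2 hs]

/-! ### Counting -/

theorem curves_sub (X : ℕ) : Curves X ⊆ Pool.Agent.H29B.AllT X := by
  intro P hP
  obtain ⟨h1, h2⟩ := hP
  refine ⟨h1.elliptic, ?_⟩
  have h3 : 4 * |P.1| ^ 3 ≤ (X : ℤ) := (le_max_left _ _).trans h2
  have h4 : 27 * P.2 ^ 2 ≤ (X : ℤ) := (le_max_right _ _).trans h2
  have h5 : 0 ≤ |P.1| ^ 3 := by positivity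
  have h6 : 0 ≤ P.2 ^ 2 := by positivity
  refine max_le ?_ ?_
  · have : ((P.1.natAbs ^ 3 : ℕ) : ℤ) ≤ X := by
      push_cast
      linarith
    exact_mod_cast this
  · have : ((P.2.natAbs ^ 2 : ℕ) : ℤ) ≤ X := by
      push_cast
      rw [sq_abs]
      linarith
    exact_mod_cast this

open Pool.Agent.Helper29L in
theorem sub_curves (X : ℕ) : FamT (X / 27) ⊆ Curves X := by
  intro P hP
  have hsq := hP.1.sqfree
  have hh : hgt P ≤ X / 27 := hP.2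
  have h27 : 27 * (X / 27) ≤ X := Nat.mul_div_le X 27
  have h1 : P.1.natAbs ^ 3 ≤ X / 27 := (le_max_left _ _).trans hh
  have h2 : P.2.natAbs ^ 2 ≤ X / 27 := (le_max_right _ _).trans hh
  refine ⟨⟨hsq.ne_zero, fun p hp h3 => ?_⟩, max_le ?_ ?_⟩
  · obtain ⟨⟨u, hu⟩, ⟨v, hv⟩⟩ := h3
    have h4 : (p : ℤ) * p ∣ 4 * P.1 ^ 3 + 27 * P.2 ^ 2 := by
      rw [hu, hv]
      exact ⟨4 * (p : ℤ) ^ 10 * u ^ 3 + 27 * (p : ℤ) ^ 10 * v ^ 2, by ring⟩
    have h5 := Int.isUnit_iff.1 (hsq _ h4)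
    have h6 := hp.one_lt
    omega
  · have h3 : 4 * P.1.natAbs ^ 3 ≤ X := by omega
    have h4 : ((4 * P.1.natAbs ^ 3 : ℕ) : ℤ) ≤ X := by exact_mod_cast h3
    push_cast at h4
    exact h4
  · have h3 : 27 * P.2.natAbs ^ 2 ≤ X := by omega
    have h4 : ((27 * P.2.natAbs ^ 2 : ℕ) : ℤ) ≤ X := by exact_mod_cast h3
    push_cast at h4
    rw [sq_abs] at h4
    exact h4

open Pool.Agent.Helper29L in
theorem curves_many : ∃ c : ℝ, 0 < c ∧ ∀ᶠ X : ℕ in atTop,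
    c * ((Pool.Agent.H29B.AllT X).ncard : ℝ) ≤ ((FamT (X / 27)).ncard : ℝ) := by
  obtain ⟨c, hc, h⟩ := lowb
  have hgr : GoodRes ∅ (fun _ => 0) :=
    ⟨fun Q hQ => absurd hQ (Finset.notMem_empty _), fun Q hQ => absurd hQ (Finset.notMem_empty _)⟩
  have hdiv : Tendsto (fun X : ℕ => X / 27) atTop atTop :=
    Nat.tendsto_div_const_atTop (by norm_num)
  refine ⟨c / (9 * 54 ^ (5 / 6 : ℝ)), by positivity, ?_⟩
  filter_upwards [hdiv.eventually (h ∅ (fun _ => 0) hgr), eventually_ge_atTop 27] with X h1 h2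
  have h3 := tot X (by omega)
  have h4 : ((Pool.Agent.H29B.AllT X).ncard : ℝ) ≤ 9 * (X : ℝ) ^ (5 / 6 : ℝ) := by
    refine le_trans ?_ h3.2
    exact_mod_cast Set.ncard_le_ncard
      (show Pool.Agent.H29B.AllT X ⊆ {p : ℤ × ℤ | hgt p ≤ X} from fun P hP => hP.2) h3.1
  have h5 : (NS ∅ (fun _ => 0) (X / 27) : ℝ) = ((FamT (X / 27)).ncard : ℝ) := by
    unfold NS FamT
    congr 2
    ext p
    exact and_congr_left' famS_empty
  rw [h5, Finset.prod_empty] at h1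
  have h6 : c * ((X / 27 : ℕ) : ℝ) ^ (5 / 6 : ℝ) ≤ ((FamT (X / 27)).ncard : ℝ) := by simpa using h1
  have h7 : (X : ℝ) / 54 ≤ ((X / 27 : ℕ) : ℝ) := by
    have h8 : X ≤ 54 * (X / 27) := by omega
    have h9 : (X : ℝ) ≤ 54 * ((X / 27 : ℕ) : ℝ) := by exact_mod_cast h8
    linarith
  have h8 : ((X : ℝ) / 54) ^ (5 / 6 : ℝ) ≤ ((X / 27 : ℕ) : ℝ) ^ (5 / 6 : ℝ) :=
    Real.rpow_le_rpow (by positivity) h7 (by norm_num)
  rw [Real.div_rpow (by positivity) (by norm_num)] at h8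
  have h54 : (0 : ℝ) < 54 ^ (5 / 6 : ℝ) := by positivity
  calc c / (9 * 54 ^ (5 / 6 : ℝ)) * ((Pool.Agent.H29B.AllT X).ncard : ℝ)
      ≤ c / (9 * 54 ^ (5 / 6 : ℝ)) * (9 * (X : ℝ) ^ (5 / 6 : ℝ)) :=
        mul_le_mul_of_nonneg_left h4 (by positivity)
    _ = c * ((X : ℝ) ^ (5 / 6 : ℝ) / 54 ^ (5 / 6 : ℝ)) := by field_simp
    _ ≤ c * ((X / 27 : ℕ) : ℝ) ^ (5 / 6 : ℝ) := mul_le_mul_of_nonneg_left h8 hc.le
    _ ≤ _ := h6

open Pool.Agent.Helper29L in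
theorem main (M₀ : Type) [Field M₀] [NumberField M₀] (hgal : IsGalois ℚ M₀) {ε : ℝ} (hε : 0 < ε) :
    ∃ (k : ℕ) (𝒬 : ℕ → Finset ℕ),
    (∀ i ≤ k, ∀ Q ∈ 𝒬 i, Q.Prime ∧ Q % 8 = 1 ∧ SplitsAt M₀ Q) ∧
    (∀ i ≤ k, ∀ j < i, Disjoint (𝒬 j) (𝒬 i)) ∧ MostCurves ε (Fans M₀ ε k 𝒬) := by
  obtain ⟨c, hc, hmin⟩ := curves_many
  have hε' : 0 < min ε (ε * c) := lt_min hε (mul_pos hε hc)
  obtain ⟨k, 𝒬, h8, hdis, hev⟩ := Pool.Agent.H29C.finD (𝒟 := {Q | SplitsAt M₀ Q})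
    (Pool.Agent.H29C.t_PRD M₀ hgal) hε'
  refine ⟨k, 𝒬, fun i hi Q hQ => ?_, fun i hi => hdis i (Nat.lt_succ_of_le hi), ?_⟩
  · have h1 := h8 i (Nat.lt_succ_of_le hi)
    exact ⟨(h1.1 Q hQ).1, (h1.1 Q hQ).2, h1.2 Q hQ⟩
  filter_upwards [hev, hmin] with X hX hm0
  have hfinC : (Curves X).Finite :=
    ((fin_hgt X).subset fun P hP => hP.2).subset (curves_sub X)
  have hm : c * ((Pool.Agent.H29B.AllT X).ncard : ℝ) ≤ ((Curves X).ncard : ℝ) :=
    hm0.trans (Nat.cast_le.2 (Set.ncard_le_ncard (sub_curves X) hfinC))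
  have hfin : (Pool.Agent.H29B.AllT X).Finite := (fin_hgt X).subset fun P hP => hP.2
  calc ({P ∈ Curves X | ¬ Fans M₀ ε k 𝒬 P}.ncard : ℝ)
      ≤ (({p : ℤ × ℤ | p ∈ Pool.Agent.H29B.AllT X ∧ ¬ (NiceP k 𝒬 (min ε (ε * c)) p ∧
          ∀ z : ℤ, z ^ 3 + p.1 * z + p.2 ≠ 0)}.ncard : ℕ) : ℝ) := by
        refine Nat.cast_le.2 (Set.ncard_le_ncard (fun P hP => ?_) (hfin.subset fun P hP => hP.1))
        have h1 := curves_sub X hP.1
        exact ⟨h1, fun hn => hP.2 (fans_mono (min_le_left _ _) (fans_of h8 hdis h1.1 hn.2 hn.1))⟩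
    _ ≤ min ε (ε * c) * ((Pool.Agent.H29B.AllT X).ncard : ℝ) := hX
    _ ≤ (ε * c) * ((Pool.Agent.H29B.AllT X).ncard : ℝ) :=
        mul_le_mul_of_nonneg_right (min_le_right _ _) (Nat.cast_nonneg _)
    _ = ε * (c * ((Pool.Agent.H29B.AllT X).ncard : ℝ)) := by ring
    _ ≤ ε * ((Curves X).ncard : ℝ) := mul_le_mul_of_nonneg_left hm hε.le

theorem one_val : poonenRains 1 = 2 * poonenRains 0 := by
  unfold poonenRains
  rw [show Finset.Icc 1 0 = (∅ : Finset ℕ) from rfl, Finset.prod_empty,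
    show Finset.Icc 1 1 = ({1} : Finset ℕ) from rfl, Finset.prod_singleton]
  ring

theorem share_pos {j : ℕ} {𝒬 : ℕ → Finset ℕ} {P : ℤ × ℤ} {𝒮 : Set ℕ} (h : 0 < share j 𝒬 P 𝒮) :
    ∃ Q : Fin j → ℕ, (∀ i : Fin j, Q i ∈ level (𝒬 i) P) ∧ ∏ i, Q i ∈ 𝒮 := by
  by_contra h1
  have h6 : ((Fintype.piFinset fun i : Fin j => level (𝒬 i) P).filter fun Q => ∏ i, Q i ∈ 𝒮) = ∅ := by
    rw [Finset.filter_eq_empty_iff]
    intro Q hQ hQ2
    exact h1 ⟨Q, Fintype.mem_piFinset.1 hQ, hQ2⟩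
  unfold share at h
  rw [h6, Finset.card_empty, Nat.cast_zero, zero_div] at h
  exact lt_irrefl _ h

/-- A bounded `d`. -/
theorem exists_twist {M₀ : Type} [Field M₀] [NumberField M₀] {ε : ℝ} (hε : ε ≤ 1 / 5) {k : ℕ}
    {𝒬 : ℕ → Finset ℕ} (h8 : ∀ i ≤ k, ∀ Q ∈ 𝒬 i, Q.Prime ∧ Q % 8 = 1 ∧ SplitsAt M₀ Q) (hdis : ∀ i ≤ k, ∀ j < i, Disjoint (𝒬 j) (𝒬 i))
    {P : ℤ × ℤ} (h : Fans M₀ ε k 𝒬 P) :
    ∃ d : ℕ, 1 ≤ d ∧ d ≤ ∏ Q ∈ (Finset.range (k + 1)).biUnion 𝒬, Q ∧ Squarefree d ∧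
      (CharacterLE P d 0 ∧ AllProductsZero P d) ∧
      (AdmissibleE M₀ P.1 P.2 → AdmissibleE M₀ (twist P (d : ℤ)).1 (twist P (d : ℤ)).2) := by
  obtain ⟨-, -, hadm, s, hs⟩ := h
  have hc0 : 1 / 5 < poonenRains 0 := Pool.Agent.Helper29L.const_lt
  obtain ⟨j, hj, hjs⟩ : ∃ j : ℕ, (j = k ∨ j = k + 1) ∧ j % 2 = s % 2 := by
    by_cases h : k % 2 = s % 2
    · exact ⟨k, Or.inl rfl, h⟩
    · exact ⟨k + 1, Or.inr rfl, by omega⟩
  have h1 := (hs j hj).2 hjs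
  have hp : 0 < share j 𝒬 P {d | CharacterLE P d 0 ∧ AllProductsZero P d} := by linarith
  obtain ⟨Q, hQ3, hQ2⟩ := share_pos hp
  have hmem : ∀ i : Fin j, Q i ∈ 𝒬 i := fun i => (Finset.mem_filter.1 (hQ3 i)).1
  have hik : ∀ i : Fin j, (i : ℕ) ≤ k := fun i => by
    have := i.2
    omega
  have hprime : ∀ i : Fin j, (Q i).Prime := fun i => (h8 i (hik i) _ (hmem i)).1
  have hinj : Function.Injective Q := inj_of (fun i hi => hdis i (by omega)) hmem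
  have e2 : ∏ q ∈ Finset.univ.image Q, q = ∏ i, Q i := Finset.prod_image fun i _ i' _ h => hinj h
  refine ⟨∏ i, Q i, Finset.prod_pos fun i _ => (hprime i).pos, ?_, ?_, hQ2,
    fun hM => hadm hM j (by omega) Q hQ3⟩
  · rw [← e2]
    refine Finset.prod_le_prod_of_subset_of_one_le' ?_ ?_
    · intro q hq
      obtain ⟨i, -, rfl⟩ := Finset.mem_image.1 hq
      exact Finset.mem_biUnion.2 ⟨i, Finset.mem_range.2 (Nat.lt_succ_of_le (hik i)), hmem i⟩
    · intro q hq _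
      obtain ⟨i, hi, hq⟩ := Finset.mem_biUnion.1 hq
      exact (h8 i (Nat.le_of_lt_succ (Finset.mem_range.1 hi)) q hq).1.one_lt.le
  · refine Finset.squarefree_prod_of_pairwise_isCoprime ?_ fun i _ => (hprime i).prime.squarefree
    intro i _ i' _ hne
    exact Nat.coprime_iff_isRelPrime.1
      ((Nat.coprime_primes (hprime i) (hprime i')).2 fun h => hne (hinj h))

/-- **Almost all elliptic curves over `ℚ`.** (1) `t = 1` and `M = ℚ` are admissible. (2) There are many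
admissible `t` and `M`. (3) The given field `M₀` is admissible for a positive proportion of the curves. (4) The
multiplicities for almost all curves. (5) The bounded `d`. (6) The constants. -/
theorem result (M₀ : Type) [Field M₀] [NumberField M₀] (hgal : IsGalois ℚ M₀)
    (hdeg : ∃ n : ℕ, Module.finrank ℚ M₀ = 2 ^ n) (hreal : Nonempty (M₀ →+* ℝ))
    (htwo : SplitsAt M₀ 2) :
    (∀ P : ℤ × ℤ, AdmissibleTwist P 1 ∧ AdmissibleE ℚ P.1 P.2) ∧
    (∀ P : ℤ × ℤ, 4 * P.1 ^ 3 + 27 * P.2 ^ 2 ≠ 0 → (∀ z : ℤ, z ^ 3 + P.1 * z + P.2 ≠ 0) → Many P) ∧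
    (∃ c : ℝ, 0 < c ∧ ∀ᶠ X : ℕ in atTop, c * ((Curves X).ncard : ℝ) ≤
      ({P ∈ Curves X | AdmissibleE M₀ P.1 P.2}.ncard : ℝ)) ∧
    (∀ ε : ℝ, 0 < ε → ∃ (k : ℕ) (𝒬 : ℕ → Finset ℕ),
      (∀ i ≤ k, ∀ Q ∈ 𝒬 i, Q.Prime ∧ Q % 8 = 1 ∧ SplitsAt M₀ Q) ∧
      (∀ i ≤ k, ∀ j < i, Disjoint (𝒬 j) (𝒬 i)) ∧ MostCurves ε (Fans M₀ ε k 𝒬)) ∧
    (∀ ε : ℝ, 0 < ε → ∃ D : ℕ, MostCurves ε fun P => (∀ z : ℤ, z ^ 3 + P.1 * z + P.2 ≠ 0) ∧
      ∃ d : ℕ, 1 ≤ d ∧ d ≤ D ∧ Squarefree d ∧ (CharacterLE P d 0 ∧ AllProductsZero P d) ∧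
        (AdmissibleE M₀ P.1 P.2 → AdmissibleE M₀ (twist P (d : ℤ)).1 (twist P (d : ℤ)).2)) ∧
    0.4 < 2 * poonenRains 0 ∧ 0.8 < 2 * poonenRains 1 := by
  have hc0 : 1 / 5 < poonenRains 0 := Pool.Agent.Helper29L.const_lt
  have hfinC : ∀ X, (Curves X).Finite := fun X =>
    ((Pool.Agent.Helper29L.fin_hgt X).subset fun P hP => hP.2).subset (curves_sub X)
  refine ⟨fun P => ⟨adm_one P, adm_rat _ _⟩, fun P hd hz => many_of hd hz, ?_,
    fun ε hε => main M₀ hgal hε, fun ε hε => ?_, by linarith, by rw [one_val]; linarith⟩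
  · obtain ⟨c, hc, h⟩ := Pool.Agent.H29C.Adm0.dens M₀ hgal hdeg hreal htwo
    obtain ⟨c', hc', h'⟩ := curves_many
    have hdiv : Tendsto (fun X : ℕ => X / 27) atTop atTop :=
      Nat.tendsto_div_const_atTop (by norm_num)
    refine ⟨c * c', mul_pos hc hc', ?_⟩
    filter_upwards [hdiv.eventually h, h'] with X h1 h2
    have hf := Pool.Agent.Helper29L.fin_hgt (X / 27)
    have h3 : ((Pool.Agent.Helper29L.FamT (X / 27)).ncard : ℝ) ≤
        ({p : ℤ × ℤ | Pool.Agent.Helper29L.hgt p ≤ X / 27}.ncard : ℝ) :=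
      Nat.cast_le.2 (Set.ncard_le_ncard (fun P hP => hP.2) hf)
    have h4 : ((Curves X).ncard : ℝ) ≤ ((Pool.Agent.H29B.AllT X).ncard : ℝ) :=
      Nat.cast_le.2 (Set.ncard_le_ncard (curves_sub X)
        ((Pool.Agent.Helper29L.fin_hgt X).subset fun P hP => hP.2))
    have hsub : {q : ℤ × ℤ | (Pool.Agent.Helper29K.InFamily q ∧ AdmissibleE M₀ q.1 q.2) ∧
        Pool.Agent.Helper29L.hgt q ≤ X / 27} ⊆ {P ∈ Curves X | AdmissibleE M₀ P.1 P.2} :=
      fun P hP => ⟨sub_curves X (show P ∈ Pool.Agent.Helper29L.FamT (X / 27) from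
        ⟨hP.1.1, hP.2⟩), hP.1.2⟩
    calc c * c' * ((Curves X).ncard : ℝ)
        ≤ c * c' * ((Pool.Agent.H29B.AllT X).ncard : ℝ) :=
          mul_le_mul_of_nonneg_left h4 (mul_pos hc hc').le
      _ = c * (c' * ((Pool.Agent.H29B.AllT X).ncard : ℝ)) := by ring
      _ ≤ c * ({p : ℤ × ℤ | Pool.Agent.Helper29L.hgt p ≤ X / 27}.ncard : ℝ) :=
          mul_le_mul_of_nonneg_left (h2.trans h3) hc.le
      _ ≤ _ := h1
      _ ≤ _ := Nat.cast_le.2 (Set.ncard_le_ncard hsub ((hfinC X).subset fun P hP => hP.1))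
  obtain ⟨k, 𝒬, h8, hdis, hev⟩ := main M₀ hgal (lt_min hε (by norm_num : (0 : ℝ) < 1 / 5))
  refine ⟨∏ Q ∈ (Finset.range (k + 1)).biUnion 𝒬, Q, ?_⟩
  filter_upwards [hev] with X hX
  refine le_trans ?_ (hX.trans (mul_le_mul_of_nonneg_right (min_le_left _ _) (Nat.cast_nonneg _)))
  exact Nat.cast_le.2 (Set.ncard_le_ncard (fun P hP => ⟨hP.1, fun hn => hP.2 ⟨hn.1,
    exists_twist (min_le_right _ _) h8 hdis hn⟩⟩) ((hfinC X).subset fun P hP => hP.1))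

end Pool.Agent.Results.MP_775b3b_nt.AlmostEveryCurve
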