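import Pool.Agent.H30T.Defs7
import Pool.Agent.H30EV.Defs
import Pool.Agent.H30T.All4

/-!
# Every elliptic curve over `ℚ` with an odd prime which divides the discriminant exactly once and without
# rational 2-torsion has infinitely many quadratic twists for which all the Artin twists by ALL admissible
# Galois 2-extensions have rank zero

Let `E : y ^ 2 = x ^ 3 + A x + B` be an elliptic curve over `ℚ` without a rational point of order two such
that some odd prime `p₀` divides `4 A ^ 3 + 27 B ^ 2` exactly once. (Ordered by height, this holds for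
`100%` of all the curves.) The number field `F` is admissible for `E` (`AdmissibleE`) if it is a real
Galois extension of `ℚ` of degree a power of two, `2` and the primes whose square divides
`4 A ^ 3 + 27 B ^ 2` split completely in `F`, and `x ^ 3 + A x + B` has no zero modulo the primes which are
ramified in `F`.

Theorem. For every field `F₀` admissible for `E`, given in advance, there are infinitely many squarefree
`D`, in every residue class `1` modulo `8 m`, `p₀ ∤ m`, all of whose prime factors split completely in
`F₀`, such that `F₀` and infinitely many real quadratic fields are admissible for the quadratic twist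
`E_D`; and for ALL fields `F` which are admissible for `E_D` at the same time `E_D(F) = 0`, the
multiplicities `m_ρ(E_D)` are zero for all complex representations `ρ` of `Gal(F/ℚ)`, and the 2-Selmer
group and the 2-primary part of the Tate-Shafarevich group of `E_D` over `F` are zero.

In particular `m_ρ(E_D) = 0` for all `ρ` of `Gal(F₀/ℚ)`. In terms of the curve `E` itself: `m_ρ'(E) = 0` for all the
representations `ρ' = ρ ⊗ χ_D` of `Gal(F(√D)/ℚ)`, `χ_D` the character of `ℚ(√D)`.

The definitions of the curve, the Selmer group and the Tate-Shafarevich group (`Trivial`) are in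
`Pool/Agent/H30EV/Defs.lean`. Plan of the proof (`Pool/Agent/H30T`): modulo the prime factors `q` of `D` the
cubic polynomial has exactly one zero. For every nonzero class of a finite group of classes of the cubic
field such a prime `q`, which excludes this class from the Selmer group of the twist, is found by
Chebotarev's theorem and the product formula for the Hasse invariants of the quadratic forms which
belong to the class; `p₀` is used for the existence of the Frobenius elements. The Selmer group over `F`
is computed by descent along the 2-group `Gal(F/ℚ)`. This gives `E_D(F)` of odd order; that it is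
zero is proved over the completions above two, where the twists by `D = 1` modulo `8` are isomorphic to
`E`: the coordinates of the points belong, up to the twist, to a finite set of algebraic numbers which
depends only on `E`, and a large prime factor of `D` excludes them.
-/

set_option autoImplicit false
set_option linter.all false

open NumberField
open Pool.Agent.H30T (AdmissibleE ManyQuadraticE SplitsAt)
open Pool.Agent.H30EV (Trivial curve)
open scoped Classical TensorProduct

namespace Pool.Agent.Results.MP_775b3b_nt.TwistsOfEveryCurve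

/-- The curve `y ^ 2 = x ^ 3 + A x + B` over `ℚ`. -/
def curveQ (p : ℤ × ℤ) : WeierstrassCurve ℚ := ⟨0, 0, 0, (p.1 : ℚ), (p.2 : ℚ)⟩

section mult

variable (F : Type) [Field F] [CharZero F] (p : ℤ × ℤ)

/-- The group `E(F)`. -/
def Pts : Type := ((curveQ p).baseChange F).toAffine.Point

noncomputable instance instPts : AddCommGroup (Pts F p) :=
  (inferInstance : AddCommGroup ((curveQ p).baseChange F).toAffine.Point)

/-- The action of `g` in the Galois group on `E(F)`. -/
noncomputable def act (g : F ≃ₐ[ℚ] F) : Pts F p →+ Pts F p :=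
  WeierstrassCurve.Affine.Point.map (W' := (curveQ p).toAffine) g.toAlgHom

/-- The complex vector space `V_E = E(F) ⊗ ℂ`. -/
def VE : Type := ℂ ⊗[ℤ] Pts F p

noncomputable instance instVE : AddCommGroup (VE F p) :=
  (inferInstance : AddCommGroup (ℂ ⊗[ℤ] Pts F p))

noncomputable instance instVE' : Module ℂ (VE F p) :=
  (inferInstance : Module ℂ (ℂ ⊗[ℤ] Pts F p))

/-- The action of `g` on `V_E`. -/
noncomputable def gal (g : F ≃ₐ[ℚ] F) : VE F p →ₗ[ℂ] VE F p :=
  LinearMap.baseChange ℂ (act F p g).toIntLinearMap

/-- The space `Hom_G(ρ, V_E)`. -/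
def HomG {V : Type} [AddCommGroup V] [Module ℂ V] (ρ : Representation ℂ (F ≃ₐ[ℚ] F) V) :
    Submodule ℂ (V →ₗ[ℂ] VE F p) where
  carrier := {f | ∀ (g : F ≃ₐ[ℚ] F) (v : V), f (ρ g v) = gal F p g (f v)}
  add_mem' := by
    intro f f' h h' g v
    rw [LinearMap.add_apply, LinearMap.add_apply, h g v, h' g v, map_add]
  zero_mem' := by
    intro g v
    rw [LinearMap.zero_apply, LinearMap.zero_apply, map_zero]
  smul_mem' := by
    intro c f h g v
    rw [LinearMap.smul_apply, LinearMap.smul_apply, h g v, map_smul]

/-- The multiplicity `m_ρ(E) = dim Hom_G(ρ, V_E)`. -/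
noncomputable def mult {V : Type} [AddCommGroup V] [Module ℂ V]
    (ρ : Representation ℂ (F ≃ₐ[ℚ] F) V) : Cardinal := Module.rank ℂ (HomG F p ρ)

end mult

/-- `E(F) = 0`, and all multiplicities `m_ρ(E)` are zero. -/
structure AllZero (F : Type) [Field F] [CharZero F] (p : ℤ × ℤ) : Prop where
  trivial : Subsingleton (Pts F p)
  zero : ∀ (V : Type) [AddCommGroup V] [Module ℂ V] (ρ : Representation ℂ (F ≃ₐ[ℚ] F) V),
    mult F p ρ = 0

theorem allZero_of {F : Type} [Field F] [NumberField F] {q : ℤ × ℤ}
    (h : Subsingleton (curve F q).toAffine.Point) : AllZero F q := by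
  have e : curve F q = (curveQ q).baseChange F := by
    apply WeierstrassCurve.ext <;> simp [curve, curveQ, WeierstrassCurve.baseChange]
  have key : ∀ W : WeierstrassCurve F, curve F q = W → Subsingleton W.toAffine.Point := by
    rintro W rfl
    exact h
  have k1 : Subsingleton (Pts F q) := key _ e
  refine ⟨k1, ?_⟩
  intro V _ _ ρ
  -- the tensor product is zero
  have hz : ∀ x : VE F q, x = 0 := by
    intro x
    change ℂ ⊗[ℤ] Pts F q at x
    induction x using TensorProduct.induction_on with
    | zero => rfl
    | tmul z P =>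
      rw [Subsingleton.elim P 0, TensorProduct.tmul_zero]
      rfl
    | add x y hx hy =>
      rw [hx, hy]
      exact add_zero (0 : VE F q)
  have hs : Subsingleton (HomG F q ρ) := by
    refine ⟨fun f f' => ?_⟩
    apply Subtype.ext
    ext v
    rw [hz ((f : V →ₗ[ℂ] VE F q) v), hz ((f' : V →ₗ[ℂ] VE F q) v)]
  exact rank_subsingleton' ℂ _

/-- Let `x ^ 3 + A x + B` have no integral zero, and let the odd prime `p₀` divide `4 A ^ 3 + 27 B ^ 2`
exactly once. For every `F₀` admissible for `E`, every `m` prime to `p₀` and every `N` there is a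
squarefree `D > N`, `D = 1` modulo `8 m`, whose prime factors split completely in `F₀`, such that `F₀` and
infinitely many real quadratic fields are admissible for `E_D`, and for ALL fields `F` admissible for `E_D`
the group `E_D(F)` is zero, `m_ρ(E_D) = 0` for all representations `ρ` of `Gal(F/ℚ)`, and the 2-Selmer group
and the 2-primary part of the Tate-Shafarevich group of `E_D` over `F` are zero. -/
theorem result (A B : ℤ) (h : ∀ x : ℤ, x ^ 3 + A * x + B ≠ 0) (p₀ : ℕ) (hp : p₀.Prime)
    (h2 : p₀ ≠ 2) (hd : (p₀ : ℤ) ∣ 4 * A ^ 3 + 27 * B ^ 2)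
    (hd2 : ¬ (p₀ : ℤ) ^ 2 ∣ 4 * A ^ 3 + 27 * B ^ 2)
    (F₀ : Type) [Field F₀] [NumberField F₀] (h₀ : AdmissibleE F₀ A B)
    (m N : ℕ) (hm : 0 < m) (hpm : ¬ p₀ ∣ m) :
    ∃ D : ℕ, N < D ∧ Squarefree D ∧ D % (8 * m) = 1 ∧
      (∀ q : ℕ, q.Prime → q ∣ D → SplitsAt F₀ q) ∧
      AdmissibleE F₀ (A * (D : ℤ) ^ 2) (B * (D : ℤ) ^ 3) ∧
      ManyQuadraticE (A * (D : ℤ) ^ 2) (B * (D : ℤ) ^ 3) ∧
      ∀ (F : Type) [Field F] [NumberField F], AdmissibleE F (A * (D : ℤ) ^ 2) (B * (D : ℤ) ^ 3) →
        AllZero F (A * (D : ℤ) ^ 2, B * (D : ℤ) ^ 3) ∧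
        Trivial F (A * (D : ℤ) ^ 2, B * (D : ℤ) ^ 3) := by
  obtain ⟨D, h1, h3, h4, h5, h6, h7, h8⟩ :=
    Pool.Agent.H30T.finalE Pool.Agent.H30T.p4 A B h hp h2 hd hd2 F₀ h₀ m N hm hpm
  exact ⟨D, h1, h3, h4, h5, h6, h7, fun F _ _ hF => ⟨allZero_of (h8 F hF).points, h8 F hF⟩⟩

end Pool.Agent.Results.MP_775b3b_nt.TwistsOfEveryCurve
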